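import Pool.Agent.MP_8299d6_al.Up.Local
import Pool.Agent.MP_8299d6_al.Up.Euler
import Pool.Agent.MP_8299d6_al.Up.Count
import Pool.Agent.MP_8299d6_al.Up.Comm

open Matrix

noncomputable section

namespace Pool.Agent.MP_8299d6_al.Up

open Pool.Agent.MP_810665_al (IrrChar)

theorem main_int (n : ℕ) (hn : 4 ≤ n) {s : ℝ} (hs : 1 < s) (hs2 : s ≤ 2) :
    repZeta (SLn n ℤ) s < ⊤ := by
  classical
  obtain ⟨C, p₀, hbig⟩ := local_big n hn
  have hsm : ∀ p : ℕ, ∃ D : ℝ, 0 ≤ D ∧ ∀ (_ : Fact p.Prime) (m : ℕ),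
      Zs (SLn n (ZMod (p ^ (m + 1)))) (fun _ => True) s ≤ D := by
    intro p
    by_cases hp : p.Prime
    · have : Fact p.Prime := ⟨hp⟩
      obtain ⟨D, hD⟩ := local_small n hn p
      exact ⟨|D|, abs_nonneg _, fun _ m => (hD m s hs.le hs2).trans (le_abs_self _)⟩
    · exact ⟨0, le_rfl, fun h => absurd h.out hp⟩
  choose D hD0 hD using hsm
  have hsum : Summable (fun p : ℕ => (if p < p₀ then D p else 0) + |C| * (p : ℝ) ^ (-s)) := by
    refine Summable.add ?_ (Summable.mul_left _ (Real.summable_nat_rpow.2 (by linarith)))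
    refine summable_of_ne_finset_zero (s := Finset.range p₀) (fun p hp => ?_)
    rw [if_neg (by simpa using hp)]
  obtain ⟨E, hE⟩ := euler n s _ (fun p => add_nonneg (by split_ifs; exacts [hD0 p, le_rfl])
    (by positivity)) hsum (fun p hp m => by
      have h0 : 0 ≤ |C| * (p : ℝ) ^ (-s) := by positivity
      split_ifs with h
      · linarith [hD p hp m]
      · have := hbig p (by omega) m s hs.le hs2
        have h2 : C * (p : ℝ) ^ (-s) ≤ |C| * (p : ℝ) ^ (-s) :=
          mul_le_mul_of_nonneg_right (le_abs_self _) (by positivity)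
        linarith)
  exact zeta_lt_top (by omega) hs E hE

theorem main (n : ℕ) (hn : 4 ≤ n) (Γ : Subgroup (SLn n ℚ))
    (hΓ : Γ.Commensurable (SpecialLinearGroup.map (Int.castRingHom ℚ)).range) :
    abscissa Γ ≤ 1 := by
  have hinj : Function.Injective
      (SpecialLinearGroup.map (Int.castRingHom ℚ) : SLn n ℤ →* SLn n ℚ) := by
    intro x y h
    ext i j
    have := congrArg (fun g : SLn n ℚ => g.1 i j) h
    simpa using this
  have key : ∀ s : ℝ, 1 < s → s ≤ 2 → abscissa Γ ≤ (s : EReal) := by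
    intro s hs hs2
    refine sInf_le ⟨s, ?_, rfl⟩
    refine zeta_comm Γ _ hΓ (by linarith) ?_
    rw [← zeta_congr (MonoidHom.ofInjective hinj)]
    exact main_int n hn hs hs2
  by_contra hlt
  push Not at hlt
  obtain ⟨t, ht1, ht2⟩ := EReal.lt_iff_exists_real_btwn.1 hlt
  have ht : (1 : ℝ) < t := by exact_mod_cast ht1
  have := key (min t 2) (lt_min ht (by norm_num)) (min_le_right _ _)
  have h3 : ((min t 2 : ℝ) : EReal) ≤ (t : EReal) := by exact_mod_cast min_le_left t 2
  exact absurd (this.trans h3) (not_le.2 ht2)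

end Pool.Agent.MP_8299d6_al.Up
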